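import Mathlib
import Pool.Agent.H47.UnitAdd

namespace Pool.Agent.Results.MP_e9426e_al.Small
open Pool.Agent.H47.UnitAdd Matrix

theorem result (n : ℕ) (x : Fin n → ℂ) : ∃ y : Fin n → ℚ, (∀ i, |y i| ≤ 2 ^ (n - 1)) ∧
    (∀ i, x i = 1 → y i = 1) ∧ ∀ i j k, x i + x j = x k → y i + y j = y k := by
  by_cases h : ∃ i, x i = 1
  swap
  · exact ⟨0, fun i => by simp, fun i hi => absurd ⟨i, hi⟩ h, by simp⟩
  obtain ⟨i0, h0⟩ := h
  obtain ⟨A, F, a, b, hd, hn, -, -, hc, -, hy⟩ := core x i0 h0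
  have hd' : (A.det : ℚ) ≠ 0 := by exact_mod_cast hd
  refine ⟨fun l => (cramer A b l : ℚ) / A.det, fun l => ?_, hy _ fun i _ => ?_⟩
  · have h1 : (1 : ℚ) ≤ |(A.det : ℚ)| := by exact_mod_cast Int.one_le_abs hd
    have h2 : |(cramer A b l : ℚ)| ≤ 2 ^ a := by exact_mod_cast hc l
    rw [abs_div]
    exact (div_le_self (abs_nonneg _) h1).trans (h2.trans (pow_le_pow_right₀ one_le_two (by omega)))
  · have := congrArg (Int.cast : ℤ → ℚ) (congrFun (mulVec_cramer A b) i)
    simp only [mulVec, dotProduct, Pi.smul_apply, smul_eq_mul] at this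
    rw [Int.cast_mul, Int.cast_sum] at this
    simp only [Int.cast_mul] at this
    simp only [← mul_div_assoc, ← Finset.sum_div, this]
    field_simp

end Pool.Agent.Results.MP_e9426e_al.Small
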